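import Pool.Agent.H815.QC.Stm2

set_option autoImplicit false

namespace Pool.Agent.H924.QC

open Pool.Agent.Y110.FJ Pool.Agent.T2H65.GP Pool.Agent.H815.QC

variable {V : Type} {Δ : SimpleGraph V} {G H : Type} [Group G] [Group H] (β : G ≃ H)

/-- the action of an element of a vertex group -/
noncomputable def act (v : V) (g : G) (q : GrP Δ (fun _ => H)) : GrP Δ (fun _ => H) :=
  q * GrP.of Δ (fun _ => H) v ((vret Δ (fun _ => H) v q)⁻¹ * β (β.symm (vret Δ (fun _ => H) v q) * g))

theorem vret_act (v : V) (g : G) (q : GrP Δ (fun _ => H)) :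
    vret Δ (fun _ => H) v (act β v g q) = β (β.symm (vret Δ (fun _ => H) v q) * g) := by
  rw [act, map_mul, vret_of, mul_inv_cancel_left]

theorem vret_act' {v w : V} (hvw : v ≠ w) (g : G) (q : GrP Δ (fun _ => H)) :
    vret Δ (fun _ => H) w (act β v g q) = vret Δ (fun _ => H) w q := by
  rw [act, map_mul, vret_of' Δ (fun _ => H) w hvw, mul_one]

theorem act_act (v : V) (g g' : G) (q : GrP Δ (fun _ => H)) :
    act β v g' (act β v g q) = act β v (g * g') q := by
  rw [act, vret_act, act, act, mul_assoc, ← map_mul, β.symm_apply_apply]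
  congr 2
  rw [mul_assoc, mul_inv_cancel_left, mul_assoc]

theorem act_one (v : V) (q : GrP Δ (fun _ => H)) : act β v 1 q = q := by
  rw [act, mul_one, β.apply_symm_apply, inv_mul_cancel, map_one, mul_one]

theorem act_comm {v w : V} (h : Δ.Adj v w) (g g' : G) (q : GrP Δ (fun _ => H)) :
    act β v g (act β w g' q) = act β w g' (act β v g q) := by
  have h1 := vret_act' β (Δ := Δ) h.ne.symm g' q
  have h2 := vret_act' β (Δ := Δ) h.ne g q
  rw [act, h1]
  conv_rhs => rw [act, h2]
  rw [act, act, mul_assoc, mul_assoc]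
  congr 1
  exact (of_comm (Λ := Δ) (B := fun _ => H) h _ _).symm

/-- the homomorphism of a vertex group -/
noncomputable def av (v : V) : G →* Equiv.Perm (GrP Δ (fun _ => H)) where
  toFun g := ⟨act β v g⁻¹, act β v g, fun q => by rw [act_act, inv_mul_cancel, act_one],
    fun q => by rw [act_act, mul_inv_cancel, act_one]⟩
  map_one' := by
    apply Equiv.ext
    intro q
    show act β v (1 : G)⁻¹ q = q
    rw [inv_one, act_one]
  map_mul' g g' := by
    apply Equiv.ext
    intro q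
    show act β v (g * g')⁻¹ q = act β v g⁻¹ (act β v g'⁻¹ q)
    rw [act_act, mul_inv_rev]

/-- the homomorphism of the graph product -/
noncomputable def ag : GrP Δ (fun _ => G) →* Equiv.Perm (GrP Δ (fun _ => H)) :=
  glift (fun v => av β v) (fun v w h a b => by
    apply Equiv.ext
    intro q
    show act β v a⁻¹ (act β w b⁻¹ q) = act β w b⁻¹ (act β v a⁻¹ q)
    exact act_comm β h _ _ _)

theorem ag_of (v : V) (g : G) (q : GrP Δ (fun _ => H)) :
    ag β (GrP.of Δ (fun _ => G) v g)⁻¹ q = act β v g q := by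
  rw [← map_inv, ag, glift_of]
  show act β v (g⁻¹)⁻¹ q = act β v g q
  rw [inv_inv]

/-- the map -/
noncomputable def FF (x : GrP Δ (fun _ => G)) : GrP Δ (fun _ => H) := ag β x⁻¹ 1

theorem FF_one : FF β (1 : GrP Δ (fun _ => G)) = 1 := by
  rw [FF, inv_one, map_one (ag β)]
  rfl

theorem FF_mul (x : GrP Δ (fun _ => G)) (v : V) (g : G) :
    FF β (x * GrP.of Δ (fun _ => G) v g) = act β v g (FF β x) := by
  rw [FF, mul_inv_rev, map_mul]
  show ag β (GrP.of Δ (fun _ => G) v g)⁻¹ (ag β x⁻¹ 1) = _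
  rw [ag_of]
  rfl

theorem vret_ag (v : V) (x : GrP Δ (fun _ => G)) : ∀ (q : GrP Δ (fun _ => H)) (k : G),
    vret Δ (fun _ => H) v q = β k →
      vret Δ (fun _ => H) v (ag β x⁻¹ q) = β (k * vret Δ (fun _ => G) v x) := by
  refine gind (p := fun x => ∀ (q : GrP Δ (fun _ => H)) (k : G), vret Δ (fun _ => H) v q = β k →
      vret Δ (fun _ => H) v (ag β x⁻¹ q) = β (k * vret Δ (fun _ => G) v x)) ?_ ?_ ?_ x
  · intro q k h
    rw [inv_one, map_one, map_one, mul_one]
    exact h
  · intro w g q k h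
    rw [ag_of]
    by_cases hw : w = v
    · subst hw
      rw [vret_act, h, β.symm_apply_apply, vret_of]
    · rw [vret_act' β hw, h, vret_of' Δ (fun _ => G) v hw, mul_one]
  · intro x y hx hy q k h
    rw [mul_inv_rev, map_mul (ag β), map_mul (vret Δ (fun _ => G) v), ← mul_assoc]
    exact hy _ _ (hx q k h)

theorem vret_FF (hβ : β 1 = 1) (v : V) (x : GrP Δ (fun _ => G)) :
    vret Δ (fun _ => H) v (FF β x) = β (vret Δ (fun _ => G) v x) := by
  have h := vret_ag β v x 1 1 (by rw [map_one, hβ])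
  rw [one_mul] at h
  exact h

theorem FF_mul' (hβ : β 1 = 1) (x : GrP Δ (fun _ => G)) (v : V) (g : G) :
    FF β (x * GrP.of Δ (fun _ => G) v g) = FF β x * GrP.of Δ (fun _ => H) v
      ((β (vret Δ (fun _ => G) v x))⁻¹ * β (vret Δ (fun _ => G) v x * g)) := by
  rw [FF_mul, act, vret_FF β hβ, β.symm_apply_apply]

theorem FF_FF (hβ : β 1 = 1) (hβ' : β.symm 1 = 1) (x : GrP Δ (fun _ => G)) :
    FF β.symm (FF β x) = x := by
  have key : ∀ z : GrP Δ (fun _ => G), FF β.symm (FF β z) = z → FF β.symm (FF β (z * x)) = z * x := by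
    refine gind (p := fun x => ∀ z : GrP Δ (fun _ => G), FF β.symm (FF β z) = z →
      FF β.symm (FF β (z * x)) = z * x) ?_ ?_ ?_ x
    · intro z hz
      rw [mul_one]
      exact hz
    · intro v g z hz
      rw [FF_mul' β hβ, FF_mul' β.symm hβ', hz, vret_FF β hβ, β.symm_apply_apply,
        mul_inv_cancel_left, β.symm_apply_apply, inv_mul_cancel_left]
    · intro x y hx hy z hz
      rw [← mul_assoc]
      exact hy _ (hx z hz)
  have h := key 1 (by rw [FF_one, FF_one])
  rw [one_mul] at h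
  exact h

theorem A2_proof : S_A2 := by
  intro V Δ G H _ _ β hβ
  have hβ' : β.symm 1 = 1 := by
    rw [← hβ, β.symm_apply_apply]
  have hβ'' : β.symm.symm 1 = 1 := hβ
  refine ⟨⟨FF β, FF β.symm, FF_FF β hβ hβ', FF_FF β.symm hβ' hβ''⟩, ?_, ?_⟩
  · intro x v g
    refine ⟨vret Δ (fun _ => G) v x, ?_⟩
    show (FF β x)⁻¹ * FF β (x * GrP.of Δ (fun _ => G) v g) = _
    rw [FF_mul' β hβ, inv_mul_cancel_left]
  · intro y v h
    refine ⟨vret Δ (fun _ => H) v y, ?_⟩
    show (FF β.symm y)⁻¹ * FF β.symm (y * GrP.of Δ (fun _ => H) v h) = _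
    rw [FF_mul' β.symm hβ', inv_mul_cancel_left]

end Pool.Agent.H924.QC
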